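import Pool.Agent.X224.RK.Good

/-!
Baire class 1 functions, ranks and the separation rank.
-/

namespace Pool.Agent.X224.RK

open Set Topology Order

section
variable {X : Type} [TopologicalSpace X]

/-- `A` is `Δ^0_2`: both `A` and its complement are `G_δ`. -/
def Delta2 (A : Set X) : Prop := IsGδ A ∧ IsGδ Aᶜ

/-- `f` is of Baire class 1: preimages of closed sets are `G_δ`. -/
def Baire1 (f : X → ℝ) : Prop := ∀ K : Set ℝ, IsClosed K → IsGδ (f ⁻¹' K)

/-- `f` is bounded. -/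
def Bdd (f : X → ℝ) : Prop := ∃ M : ℝ, ∀ x, |f x| ≤ M

/-- `α₁(B, C)`: the least length of a transfinite difference separating `B` from `C`. -/
noncomputable def alphaS (B C : Set X) : Ordinal.{0} := sInf {l | Sep l B C}

/-- `α₁(f)`: the supremum of `α₁({f ≤ p}, {f ≥ q})` over the rationals `p < q`. -/
noncomputable def alpha1 (f : X → ℝ) : Ordinal.{0} :=
  ⨆ pq : {pq : ℚ × ℚ // pq.1 < pq.2}, alphaS {x | f x ≤ (pq.1.1 : ℝ)} {x | (pq.1.2 : ℝ) ≤ f x}

/-- The characteristic function of `A`. -/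
noncomputable def chi (A : Set X) : X → ℝ := A.indicator fun _ => 1

end

open Ordinal in
/-- `θ ≲ θ'`: for every `1 ≤ η < ω₁`, `θ' ≤ ω^η` implies `θ ≤ ω^η`. -/
def lesssim (θ θ' : Ordinal.{0}) : Prop :=
  ∀ η : Ordinal.{0}, 1 ≤ η → η < ω_ 1 → θ' ≤ ω ^ η → θ ≤ ω ^ η

/-- `θ ≈ θ'` -/
def approx (θ θ' : Ordinal.{0}) : Prop := lesssim θ θ' ∧ lesssim θ' θ

/-- A family of maps `(ρ^X)`, one for each Polish space `X`. -/
abbrev Rank := ∀ (X : Type) [TopologicalSpace X] [PolishSpace X], (X → ℝ) → Ordinal.{0}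

open Ordinal in
/-- `ρ` is a rank: its values at bounded Baire class 1 functions are countable ordinals. -/
def IsRank (ρ : Rank) : Prop :=
  ∀ (X : Type) [TopologicalSpace X] [PolishSpace X] (f : X → ℝ), Baire1 f → Bdd f → ρ X f < ω_ 1

/-- (P1) -/
def P1 (ρ : Rank) : Prop :=
  ∀ (X : Type) [TopologicalSpace X] [PolishSpace X] (A : Set X), Delta2 A →
    approx (ρ X (chi A)) (alphaS A Aᶜ)

/-- (P2) -/
def P2 (ρ : Rank) : Prop :=
  (∀ (X : Type) [TopologicalSpace X] [PolishSpace X] (f : X → ℝ) (c : ℝ), Baire1 f → Bdd f →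
    c ≠ 0 → approx (ρ X fun x => c * f x) (ρ X f)) ∧
  (∀ (X : Type) [TopologicalSpace X] [PolishSpace X] (f g : X → ℝ), Baire1 f → Bdd f →
    Baire1 g → Bdd g → lesssim (ρ X fun x => f x + g x) (max (ρ X f) (ρ X g)))

/-- (P3) -/
def P3 (ρ : Rank) : Prop :=
  ∀ (X : Type) [TopologicalSpace X] [PolishSpace X] (f : X → ℝ) (g : ℕ → X → ℝ), Baire1 f →
    Bdd f → (∀ n, Baire1 (g n)) → (∀ n, Bdd (g n)) → TendstoUniformly g f Filter.atTop →
    lesssim (ρ X f) (⨆ n, ρ X (g n))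

/-- (P4) -/
def P4 (ρ : Rank) : Prop :=
  ∀ (X : Type) [TopologicalSpace X] [PolishSpace X] (f : X → ℝ) (h : ℝ → ℝ), Baire1 f → Bdd f →
    (∃ K, LipschitzWith K h) → lesssim (ρ X fun x => h (f x)) (ρ X f)

section
variable {X : Type} [TopologicalSpace X]

theorem Baire1.comp {f : X → ℝ} (hf : Baire1 f) {h : ℝ → ℝ} (hh : Continuous h) :
    Baire1 fun x => h (f x) := by
  intro K hK
  exact hf _ (hK.preimage hh)

theorem Baire1.add {f g : X → ℝ} (hf : Baire1 f) (hg : Baire1 g) :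
    Baire1 fun x => f x + g x := by
  intro K hK
  let U : Set (ℝ × ℝ) := {p | p.1 + p.2 ∈ K}ᶜ
  have hU : IsOpen U := (hK.preimage (continuous_fst.add continuous_snd)).isOpen_compl
  have hb := (TopologicalSpace.isBasis_countableBasis ℝ).prod
    (TopologicalSpace.isBasis_countableBasis ℝ)
  obtain ⟨S, hS, hUS⟩ := hb.open_eq_sUnion hU
  have hc : S.Countable := by
    refine Countable.mono hS ?_
    exact (TopologicalSpace.countable_countableBasis ℝ).image2
      (TopologicalSpace.countable_countableBasis ℝ) _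
  have e : (fun x => f x + g x) ⁻¹' K = ⋂ s ∈ S, {x | (f x, g x) ∈ s}ᶜ := by
    ext x
    simp only [mem_preimage, mem_iInter, mem_compl_iff, mem_ofPred_eq]
    constructor
    · intro hx s hs hxs
      have : (f x, g x) ∈ U := by rw [hUS]; exact ⟨s, hs, hxs⟩
      exact this hx
    · intro h
      by_contra hx
      have : (f x, g x) ∈ U := hx
      rw [hUS] at this
      obtain ⟨s, hs, hxs⟩ := this
      exact h s hs hxs
  rw [e]
  refine IsGδ.biInter hc fun s hs => ?_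
  obtain ⟨a, ha, b, hb', rfl⟩ := hS hs
  have h1 : IsOpen a := TopologicalSpace.isOpen_of_mem_countableBasis ha
  have h2 : IsOpen b := TopologicalSpace.isOpen_of_mem_countableBasis hb'
  have e2 : {x | (f x, g x) ∈ a ×ˢ b}ᶜ = (f ⁻¹' aᶜ) ∪ (g ⁻¹' bᶜ) := by
    ext x
    simp only [mem_compl_iff, mem_ofPred_eq, mem_prod, mem_union, mem_preimage]
    tauto
  rw [e2]
  exact (hf _ h1.isClosed_compl).union (hg _ h2.isClosed_compl)

theorem Baire1.mul_const {f : X → ℝ} (hf : Baire1 f) (c : ℝ) : Baire1 fun x => c * f x :=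
  hf.comp (continuous_const.mul continuous_id)

theorem baire1_chi {A : Set X} (hA : Delta2 A) : Baire1 (chi A) := by
  intro K _
  by_cases h1 : (1 : ℝ) ∈ K <;> by_cases h0 : (0 : ℝ) ∈ K
  · have : chi A ⁻¹' K = univ := by
      refine eq_univ_of_forall fun x => ?_
      change chi A x ∈ K
      unfold chi
      by_cases hx : x ∈ A
      · rw [indicator_of_mem hx]; exact h1
      · rw [indicator_of_notMem hx]; exact h0
    rw [this]
    exact isOpen_univ.isGδ
  · have : chi A ⁻¹' K = A := by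
      ext x
      change chi A x ∈ K ↔ _
      unfold chi
      by_cases hx : x ∈ A
      · rw [indicator_of_mem hx]; exact ⟨fun _ => hx, fun _ => h1⟩
      · rw [indicator_of_notMem hx]; exact ⟨fun h => absurd h h0, fun h => absurd h hx⟩
    rw [this]
    exact hA.1
  · have : chi A ⁻¹' K = Aᶜ := by
      ext x
      change chi A x ∈ K ↔ _
      unfold chi
      by_cases hx : x ∈ A
      · rw [indicator_of_mem hx]; exact ⟨fun h => absurd h h1, fun h => absurd hx h⟩
      · rw [indicator_of_notMem hx]; exact ⟨fun _ => hx, fun _ => h0⟩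
    rw [this]
    exact hA.2
  · have : chi A ⁻¹' K = ∅ := by
      refine eq_empty_of_forall_notMem fun x => ?_
      change ¬ chi A x ∈ K
      unfold chi
      by_cases hx : x ∈ A
      · rw [indicator_of_mem hx]; exact h1
      · rw [indicator_of_notMem hx]; exact h0
    rw [this]
    exact isOpen_empty.isGδ

theorem bdd_chi (A : Set X) : Bdd (chi A) := by
  refine ⟨1, fun x => ?_⟩
  unfold chi
  by_cases hx : x ∈ A
  · rw [indicator_of_mem hx]; simp
  · rw [indicator_of_notMem hx]; simp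

theorem Bdd.add {f g : X → ℝ} (hf : Bdd f) (hg : Bdd g) : Bdd fun x => f x + g x := by
  obtain ⟨M, hM⟩ := hf
  obtain ⟨N, hN⟩ := hg
  exact ⟨M + N, fun x => (abs_add_le _ _).trans (add_le_add (hM x) (hN x))⟩

theorem Bdd.mul_const {f : X → ℝ} (hf : Bdd f) (c : ℝ) : Bdd fun x => c * f x := by
  obtain ⟨M, hM⟩ := hf
  refine ⟨|c| * M, fun x => ?_⟩
  rw [abs_mul]
  exact mul_le_mul_of_nonneg_left (hM x) (abs_nonneg _)

theorem delta2_univ : Delta2 (univ : Set X) := by
  refine ⟨isOpen_univ.isGδ, ?_⟩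
  rw [compl_univ]
  exact isOpen_empty.isGδ

theorem two_mul_opow {η : Ordinal.{0}} (h : 1 ≤ η) :
    2 * Ordinal.omega0 ^ η = Ordinal.omega0 ^ η := by
  refine Ordinal.mul_omega0_dvd (by norm_num) ?_ ?_
  · exact_mod_cast Ordinal.natCast_lt_omega0 2
  · have := Ordinal.opow_dvd_opow Ordinal.omega0 h
    rwa [Ordinal.opow_one] at this

theorem alphaS_le {l : Ordinal.{0}} {B C : Set X} (h : Sep l B C) : alphaS B C ≤ l := csInf_le' h

theorem alphaS_le_of_der {η : Ordinal.{0}} (h : 1 ≤ η) {B C : Set X}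
    (hd : der B C univ (Ordinal.omega0 ^ η) = ∅) : alphaS B C ≤ Ordinal.omega0 ^ η := by
  have := sep_of_der hd
  rw [two_mul_opow h] at this
  exact alphaS_le this

theorem sep_alphaS [PolishSpace X] {B C : Set X} (hB : IsGδ B) (hC : IsGδ C) (hBC : B ∩ C = ∅) :
    Sep (alphaS B C) B C := by
  have hne : {l | Sep l B C}.Nonempty := by
    obtain ⟨l, hl⟩ := der_dies hB hC hBC
    exact ⟨_, sep_of_der hl⟩
  exact csInf_mem hne

theorem der_symm {B C S : Set X} : ∀ θ : Ordinal.{0}, der B C S θ = der C B S θ := by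
  intro θ
  induction θ using WellFoundedLT.induction with
  | ind θ ih =>
    ext x
    rw [mem_der, mem_der]
    constructor
    · rintro ⟨h1, h2⟩
      refine ⟨h1, fun ζ hζ => ?_⟩
      rw [← ih ζ hζ]
      exact ⟨(h2 ζ hζ).2, (h2 ζ hζ).1⟩
    · rintro ⟨h1, h2⟩
      refine ⟨h1, fun ζ hζ => ?_⟩
      rw [ih ζ hζ]
      exact ⟨(h2 ζ hζ).2, (h2 ζ hζ).1⟩

/-- Every point lies in one of the differences of a sequence. -/
theorem exists_diff {l : Ordinal.{0}} {F : Ordinal.{0} → Set X} (hF : IsSeq l F) (x : X) :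
    ∃ η, x ∈ F η ∧ x ∉ F (η + 1) := by
  by_contra hcon
  push Not at hcon
  have : ∀ θ, x ∈ F θ := by
    intro θ
    induction θ using WellFoundedLT.induction with
    | ind θ ih =>
      rcases Ordinal.zero_or_succ_or_isSuccLimit θ with h | ⟨ζ, h⟩ | h
      · rw [h, hF.zero]; trivial
      · have hθ : θ = ζ + 1 := by rw [← h]; rfl
        have hlt : ζ < θ := by rw [hθ]; exact lt_add_one ζ
        rw [hθ]
        exact hcon ζ (ih ζ hlt)
      · rw [hF.cont θ h]
        simp only [mem_iInter]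
        exact fun ζ hζ => ih ζ hζ
  have h1 := this l
  rw [hF.empty l le_rfl] at h1
  exact h1

theorem gdelta_compl_diff [PolishSpace X] {l : Ordinal.{0}} {F : Ordinal.{0} → Set X}
    (hF : IsSeq l F) (E : Set Ordinal.{0}) : IsGδ {x | ∃ η ∈ E, x ∈ F η ∧ x ∉ F (η + 1)}ᶜ := by
  let S : Set Ordinal.{0} := {η | ∃ x, x ∈ F η ∧ x ∉ F (η + 1)}
  have hS : S.Countable := by
    have h1 : ∀ η : S, ∃ x : X, ∃ U : TopologicalSpace.countableBasis X,
        x ∈ F η ∧ x ∈ U.1 ∧ U.1 ⊆ (F (η + 1))ᶜ := by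
      rintro ⟨η, x, hx1, hx2⟩
      obtain ⟨U, hU, hxU, hUF⟩ := (TopologicalSpace.isBasis_countableBasis X).exists_subset_of_mem_open
        (show x ∈ (F (η + 1))ᶜ from hx2) (hF.closed (η + 1)).isOpen_compl
      exact ⟨x, ⟨U, hU⟩, hx1, hxU, hUF⟩
    choose x U hx hxU hUF using h1
    have hcb : Countable (TopologicalSpace.countableBasis X) :=
      (TopologicalSpace.countable_countableBasis X).to_subtype
    have hlt : ∀ η ζ : S, η.1 < ζ.1 → U η ≠ U ζ := by
      intro η ζ h e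
      have h2 : x ζ ∈ (U η).1 := by rw [e]; exact hxU ζ
      exact hUF η h2 (hF.anti _ _ (Order.add_one_le_of_lt h) (hx ζ))
    have hinj : Function.Injective U := by
      intro η ζ e
      rcases lt_trichotomy η.1 ζ.1 with h | h | h
      · exact absurd e (hlt η ζ h)
      · exact Subtype.ext h
      · exact absurd e.symm (hlt ζ η h)
    exact hinj.countable
  have e : {x | ∃ η ∈ E, x ∈ F η ∧ x ∉ F (η + 1)}ᶜ = ⋂ η ∈ S ∩ E, ((F η)ᶜ ∪ F (η + 1)) := by
    ext x
    simp only [mem_compl_iff, mem_ofPred_eq, mem_iInter, mem_union, not_exists, not_and, not_not]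
    constructor
    · intro h η hη
      by_cases hx : x ∈ F η
      · exact Or.inr (h η hη.2 hx)
      · exact Or.inl hx
    · intro h η hη hx
      by_contra hc
      rcases h η ⟨⟨x, hx, hc⟩, hη⟩ with h1 | h1
      · exact h1 hx
      · exact hc h1
  rw [e]
  refine IsGδ.biInter (hS.mono inter_subset_left) fun η _ => ?_
  exact (hF.closed η).isOpen_compl.isGδ.union (hF.closed (η + 1)).isGδ

theorem delta2_tdiff [PolishSpace X] {l : Ordinal.{0}} {F : Ordinal.{0} → Set X}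
    (hF : IsSeq l F) : Delta2 (tdiff l F) := by
  have h1 := gdelta_compl_diff hF {η | 2 ∣ η ∧ η < l}
  have h2 := gdelta_compl_diff hF {η | ¬ (2 ∣ η ∧ η < l)}
  have e1 : {x | ∃ η ∈ {η | 2 ∣ η ∧ η < l}, x ∈ F η ∧ x ∉ F (η + 1)} = tdiff l F := by
    ext x
    constructor
    · rintro ⟨η, ⟨h3, h4⟩, h5⟩
      exact ⟨η, h3, h4, h5⟩
    · rintro ⟨η, h3, h4, h5⟩
      exact ⟨η, ⟨h3, h4⟩, h5⟩
  have e2 : {x | ∃ η ∈ {η | ¬ (2 ∣ η ∧ η < l)}, x ∈ F η ∧ x ∉ F (η + 1)}ᶜ = tdiff l F := by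
    ext x
    constructor
    · intro hx
      obtain ⟨η, h3, h4⟩ := exists_diff hF x
      by_contra hc
      apply hx
      refine ⟨η, ?_, h3, h4⟩
      rintro ⟨h5, h6⟩
      exact hc ⟨η, h5, h6, h3, h4⟩
    · rintro ⟨η, h3, h4, h5, h6⟩ ⟨ζ, h7, h8, h9⟩
      have := uniq hF.anti h5 h6 h8 h9
      exact h7 (this ▸ ⟨h3, h4⟩)
  rw [e1] at h1
  rw [e2] at h2
  exact ⟨h2, h1⟩

end

end Pool.Agent.X224.RK
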