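import Mathlib

/-!
The derivative associated with two sets, and its relation with continuous decreasing sequences of
closed sets.
-/

namespace Pool.Agent.X224.RK

open Set Topology Order

/-- A sequence `(F_η)` of closed sets with `F_0 = X`, decreasing, continuous at limits, and with
`F_η = ∅` for `η ≥ l`. (At the limit `η = l` continuity says that the intersection is empty.) -/
structure IsSeq {X : Type} [TopologicalSpace X] (l : Ordinal.{0}) (F : Ordinal.{0} → Set X) :
    Prop where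
  zero : F 0 = univ
  closed : ∀ η, IsClosed (F η)
  anti : ∀ η θ, η ≤ θ → F θ ⊆ F η
  cont : ∀ η, IsSuccLimit η → F η = ⋂ θ : Ordinal.{0}, ⋂ _ : θ < η, F θ
  empty : ∀ η, l ≤ η → F η = ∅

/-- The transfinite difference: union of `F_η \ F_{η+1}` over the even `η < l`. -/
def tdiff {X : Type} (l : Ordinal.{0}) (F : Ordinal.{0} → Set X) : Set X :=
  {x | ∃ η, 2 ∣ η ∧ η < l ∧ x ∈ F η ∧ x ∉ F (η + 1)}

/-- `B` and `C` are separated by a transfinite difference of length `l`. -/
def Sep {X : Type} [TopologicalSpace X] (l : Ordinal.{0}) (B C : Set X) : Prop :=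
  ∃ F : Ordinal.{0} → Set X, IsSeq l F ∧ B ⊆ tdiff l F ∧ tdiff l F ∩ C = ∅

/-- the iterated derivative started from `S` -/
noncomputable def der {X : Type} [TopologicalSpace X] (B C S : Set X) (θ : Ordinal.{0}) : Set X :=
  S ∩ {x | ∀ ζ : Ordinal.{0}, (h : ζ < θ) → x ∈ closure (der B C S ζ ∩ B) ∧
    x ∈ closure (der B C S ζ ∩ C)}
termination_by θ
decreasing_by all_goals exact h

section
variable {X : Type} [TopologicalSpace X] {B C S : Set X}

theorem mem_der {θ : Ordinal.{0}} {x : X} : x ∈ der B C S θ ↔ x ∈ S ∧ ∀ ζ < θ,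
    x ∈ closure (der B C S ζ ∩ B) ∧ x ∈ closure (der B C S ζ ∩ C) := by
  rw [der]
  rfl

theorem der_anti {θ θ' : Ordinal.{0}} (h : θ ≤ θ') : der B C S θ' ⊆ der B C S θ := by
  intro x hx
  rw [mem_der] at hx ⊢
  exact ⟨hx.1, fun ζ hζ => hx.2 ζ (hζ.trans_le h)⟩

theorem der_closed (hS : IsClosed S) (θ : Ordinal.{0}) : IsClosed (der B C S θ) := by
  have : der B C S θ = S ∩ ⋂ ζ : Ordinal.{0}, ⋂ _ : ζ < θ,
      (closure (der B C S ζ ∩ B) ∩ closure (der B C S ζ ∩ C)) := by
    ext x
    rw [mem_der]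
    simp only [mem_inter_iff, mem_iInter]
  rw [this]
  exact hS.inter (isClosed_iInter fun ζ => isClosed_iInter fun _ =>
    isClosed_closure.inter isClosed_closure)

theorem der_mono {B' C' S' : Set X} (hS : S ⊆ S') (hB : S ∩ B ⊆ B') (hC : S ∩ C ⊆ C') :
    ∀ θ : Ordinal.{0}, der B C S θ ⊆ der B' C' S' θ := by
  intro θ
  induction θ using WellFoundedLT.induction with
  | ind θ ih =>
    intro x hx
    rw [mem_der] at hx ⊢
    refine ⟨hS hx.1, fun ζ hζ => ⟨?_, ?_⟩⟩
    · refine closure_mono ?_ (hx.2 ζ hζ).1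
      intro y hy
      exact ⟨ih ζ hζ hy.1, hB ⟨(mem_der.1 hy.1).1, hy.2⟩⟩
    · refine closure_mono ?_ (hx.2 ζ hζ).2
      intro y hy
      exact ⟨ih ζ hζ hy.1, hC ⟨(mem_der.1 hy.1).1, hy.2⟩⟩

/-- If `x` is in one difference of a decreasing sequence then in no other one. -/
theorem uniq {F : Ordinal.{0} → Set X} (hanti : ∀ η θ, η ≤ θ → F θ ⊆ F η) {x : X}
    {η ζ : Ordinal.{0}} (h1 : x ∈ F η) (h2 : x ∉ F (η + 1)) (h3 : x ∈ F ζ) (h4 : x ∉ F (ζ + 1)) :
    η = ζ := by
  rcases lt_trichotomy η ζ with h | h | h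
  · exact absurd (hanti _ _ (Order.add_one_le_of_lt h) h3) h2
  · exact h
  · exact absurd (hanti _ _ (Order.add_one_le_of_lt h) h1) h4

/-- The derivatives are contained in the members of a separating sequence. -/
theorem der_subset {l : Ordinal.{0}} {F : Ordinal.{0} → Set X} (hF : IsSeq l F)
    (hB : B ⊆ tdiff l F) (hC : tdiff l F ∩ C = ∅) : ∀ θ : Ordinal.{0}, der B C univ θ ⊆ F θ := by
  intro θ
  induction θ using WellFoundedLT.induction with
  | ind θ ih =>
    rcases Ordinal.zero_or_succ_or_isSuccLimit θ with h | ⟨ζ, h⟩ | h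
    · rw [h, hF.zero]
      exact subset_univ _
    · have hθ : θ = ζ + 1 := by rw [← h]; rfl
      have hlt : ζ < θ := by rw [hθ]; exact lt_add_one ζ
      intro x hx
      by_contra hx'
      have h1 := (mem_der.1 hx).2 ζ hlt
      have hU : IsOpen (F θ)ᶜ := (hF.closed θ).isOpen_compl
      obtain ⟨b, hb1, hb2, hb3⟩ := mem_closure_iff.1 h1.1 _ hU hx'
      obtain ⟨c, hc1, hc2, hc3⟩ := mem_closure_iff.1 h1.2 _ hU hx'
      obtain ⟨η, he, hηl, hη1, hη2⟩ := hB hb3
      rw [hθ] at hb1 hc1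
      have e := uniq hF.anti hη1 hη2 (ih ζ hlt hb2) hb1
      have : c ∈ tdiff l F ∩ C := ⟨⟨ζ, e ▸ he, e ▸ hηl, ih ζ hlt hc2, hc1⟩, hc3⟩
      rw [hC] at this
      exact this
    · rw [hF.cont θ h]
      intro x hx
      simp only [mem_iInter]
      intro ζ hζ
      exact ih ζ hζ (der_anti hζ.le hx)

theorem two_mul_lt {a b : Ordinal.{0}} : 2 * a < 2 * b ↔ a < b :=
  mul_lt_mul_iff_right₀ (by norm_num)

theorem two_mul_le {a b : Ordinal.{0}} : 2 * a ≤ 2 * b ↔ a ≤ b :=
  mul_le_mul_iff_right₀ (by norm_num)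

theorem two_mul_succ (a : Ordinal.{0}) : 2 * (a + 1) = 2 * a + 1 + 1 := by
  rw [mul_add, mul_one, add_assoc, one_add_one_eq_two]

theorem odd_le_even {a b : Ordinal.{0}} : 2 * a + 1 ≤ 2 * b ↔ a < b := by
  rw [Order.add_one_le_iff, two_mul_lt]

theorem even_le_odd {a b : Ordinal.{0}} : 2 * a ≤ 2 * b + 1 ↔ a ≤ b := by
  constructor
  · intro h
    by_contra hc
    push Not at hc
    have h1 : 2 * b + 1 + 1 ≤ 2 * a := by
      rw [← two_mul_succ, two_mul_le]
      exact Order.add_one_le_of_lt hc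
    exact absurd (h1.trans h) (not_le.2 (lt_add_one _))
  · intro h
    exact (two_mul_le.2 h).trans (lt_add_one _).le

/-- If the derivative dies out at `l` then `B` and `C` are separated by a difference of length
`2 * l`. -/
theorem sep_of_der {l : Ordinal.{0}} (hd : der B C univ l = ∅) : Sep (2 * l) B C := by
  let P := der B C (univ : Set X)
  let F : Ordinal.{0} → Set X := fun η => {x | (∀ ζ : Ordinal.{0}, 2 * ζ ≤ η → x ∈ P ζ) ∧
    (∀ ζ : Ordinal.{0}, 2 * ζ + 1 ≤ η → x ∈ closure (P ζ ∩ C))}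
  have hP : ∀ θ, IsClosed (P θ) := fun θ => der_closed isClosed_univ θ
  have hPC : ∀ ζ, closure (P ζ ∩ C) ⊆ P ζ := fun ζ =>
    closure_minimal inter_subset_left (hP ζ)
  have hev : ∀ θ, F (2 * θ) = P θ := by
    intro θ
    ext x
    constructor
    · intro h
      exact h.1 θ le_rfl
    · intro h
      refine ⟨fun ζ hζ => der_anti (two_mul_le.1 hζ) h, fun ζ hζ => ?_⟩
      exact ((mem_der.1 h).2 ζ (odd_le_even.1 hζ)).2
  have hod : ∀ θ, F (2 * θ + 1) = closure (P θ ∩ C) := by
    intro θ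
    ext x
    constructor
    · intro h
      exact h.2 θ le_rfl
    · intro h
      have hx := hPC _ h
      refine ⟨fun ζ hζ => der_anti (even_le_odd.1 hζ) hx, fun ζ hζ => ?_⟩
      have h1 : ζ ≤ θ := by
        have : 2 * ζ ≤ 2 * θ := Order.lt_add_one_iff.1 (Order.add_one_le_iff.1 hζ)
        exact two_mul_le.1 this
      rcases h1.lt_or_eq with h2 | h2
      · exact ((mem_der.1 hx).2 ζ h2).2
      · rw [h2]; exact h
  have hanti : ∀ η θ, η ≤ θ → F θ ⊆ F η := by
    intro η θ h x hx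
    exact ⟨fun ζ hζ => hx.1 ζ (hζ.trans h), fun ζ hζ => hx.2 ζ (hζ.trans h)⟩
  have hclosed : ∀ η, IsClosed (F η) := by
    intro η
    have : F η = (⋂ ζ : Ordinal.{0}, ⋂ _ : 2 * ζ ≤ η, P ζ) ∩
        ⋂ ζ : Ordinal.{0}, ⋂ _ : 2 * ζ + 1 ≤ η, closure (P ζ ∩ C) := by
      ext x
      simp only [F, mem_inter_iff, mem_iInter, mem_ofPred_eq]
    rw [this]
    exact (isClosed_iInter fun ζ => isClosed_iInter fun _ => hP ζ).inter
      (isClosed_iInter fun ζ => isClosed_iInter fun _ => isClosed_closure)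
  have hzero : F 0 = univ := by
    have h1 := hev 0
    rw [mul_zero] at h1
    rw [h1]
    refine eq_univ_of_forall fun x => mem_der.2 ⟨mem_univ _, fun ζ hζ => ?_⟩
    exact absurd hζ (not_lt.2 zero_le)
  have hempty : ∀ η, 2 * l ≤ η → F η = ∅ := by
    intro η h
    have h1 := hanti _ _ h
    rw [hev l] at h1
    have h2 : P l = ∅ := hd
    rw [h2] at h1
    exact subset_empty_iff.1 h1
  have hcont : ∀ η, IsSuccLimit η → F η = ⋂ θ : Ordinal.{0}, ⋂ _ : θ < η, F θ := by
    intro η hη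
    apply Subset.antisymm
    · intro x hx
      simp only [mem_iInter]
      exact fun θ hθ => hanti _ _ hθ.le hx
    · intro x hx
      simp only [mem_iInter] at hx
      refine ⟨fun ζ hζ => ?_, fun ζ hζ => ?_⟩
      · refine mem_der.2 ⟨mem_univ _, fun ξ hξ => ?_⟩
        have h1 : 2 * (ξ + 1) ≤ η := (two_mul_le.2 (Order.add_one_le_of_lt hξ)).trans hζ
        have h2 : 2 * (ξ + 1) < η := by
          refine lt_of_le_of_ne h1 ?_
          rw [two_mul_succ]
          intro h
          have : IsSuccLimit (Order.succ (2 * ξ + 1)) := by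
            rw [Order.succ_eq_add_one, h]; exact hη
          exact Order.not_isSuccLimit_succ _ this
        have h3 := hx _ h2
        rw [hev] at h3
        exact (mem_der.1 h3).2 ξ (lt_add_one ξ)
      · have h2 : 2 * ζ + 1 < η := by
          refine lt_of_le_of_ne hζ ?_
          intro h
          have : IsSuccLimit (Order.succ (2 * ζ)) := by
            rw [Order.succ_eq_add_one, h]; exact hη
          exact Order.not_isSuccLimit_succ _ this
        have h3 := hx _ h2
        rw [hod] at h3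
        exact h3
  refine ⟨F, ⟨hzero, hclosed, hanti, hcont, hempty⟩, ?_, ?_⟩
  · intro x hx
    -- the first derivative which does not contain `x`
    have hne : ∃ ζ, x ∈ P ζ ∧ x ∉ closure (P ζ ∩ C) := by
      by_contra hcon
      push Not at hcon
      have : ∀ θ, x ∈ P θ := by
        intro θ
        induction θ using WellFoundedLT.induction with
        | ind θ ih =>
          refine mem_der.2 ⟨mem_univ _, fun ζ hζ => ⟨?_, hcon ζ (ih ζ hζ)⟩⟩
          exact subset_closure ⟨ih ζ hζ, hx⟩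
      have h1 := this l
      have h2 : P l = ∅ := hd
      rw [h2] at h1
      exact h1
    obtain ⟨ζ, h1, h2⟩ := hne
    refine ⟨2 * ζ, Dvd.intro ζ rfl, ?_, by rw [hev]; exact h1, by rw [hod]; exact h2⟩
    rw [two_mul_lt]
    by_contra hc
    push Not at hc
    have h3 : x ∈ P l := der_anti hc h1
    have h4 : P l = ∅ := hd
    rw [h4] at h3
    exact h3
  · rw [eq_empty_iff_forall_notMem]
    rintro x ⟨⟨η, ⟨ζ, rfl⟩, -, h1, h2⟩, hxC⟩
    rw [hev] at h1
    rw [hod] at h2
    exact h2 (subset_closure ⟨h1, hxC⟩)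

theorem Sep.mono {l l' : Ordinal.{0}} (h : l ≤ l') (hs : Sep l B C) : Sep l' B C := by
  obtain ⟨F, hF, hB, hC⟩ := hs
  have e : tdiff l F = tdiff l' F := by
    ext x
    constructor
    · rintro ⟨η, h1, h2, h3⟩
      exact ⟨η, h1, h2.trans_le h, h3⟩
    · rintro ⟨η, h1, h2, h3, h4⟩
      refine ⟨η, h1, ?_, h3, h4⟩
      by_contra hc
      push Not at hc
      rw [hF.empty η hc] at h3
      exact h3
  refine ⟨F, ⟨hF.zero, hF.closed, hF.anti, hF.cont, fun η hη => hF.empty η (h.trans hη)⟩, ?_, ?_⟩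
  · rw [← e]; exact hB
  · rw [← e]; exact hC

/-- If `B`, `C` are separated by a difference of length `l` the derivative dies out at `l`. -/
theorem der_of_sep {l : Ordinal.{0}} (h : Sep l B C) : der B C univ l = ∅ := by
  obtain ⟨F, hF, hB, hC⟩ := h
  have := der_subset hF hB hC l
  rw [hF.empty l le_rfl] at this
  exact subset_empty_iff.1 this

end

end Pool.Agent.X224.RK
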