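import Pool.Agent.X224.RK.Der

/-!
A point of an iterated derivative lies in the same iterated derivative of a closed set all of whose
other points belong to `B ∪ C`.
-/

namespace Pool.Agent.X224.RK

open Set Topology Order

/-- A point together with closed sets shrinking to it is closed. -/
theorem closed_union {X ι : Type*} [MetricSpace X] (x : X) (K : ι → Set X) (r : ι → ℝ)
    (hK : ∀ j, IsClosed (K j)) (hr : ∀ j, K j ⊆ Metric.closedBall x (r j))
    (hfin : ∀ δ > 0, {j | δ ≤ r j}.Finite) : IsClosed ({x} ∪ ⋃ j, K j) := by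
  rw [← isOpen_compl_iff, isOpen_iff_mem_nhds]
  intro w hw
  have hwx : w ≠ x := fun h => hw (Or.inl h)
  have hδ : 0 < dist w x := dist_pos.2 hwx
  have hwK : ∀ j, w ∉ K j := fun j h => hw (Or.inr (mem_iUnion.2 ⟨j, h⟩))
  have hf := hfin (dist w x / 2) (by linarith)
  have h1 : (⋂ j ∈ {j | dist w x / 2 ≤ r j}, (K j)ᶜ) ∈ 𝓝 w := by
    rw [Filter.biInter_mem hf]
    intro j _
    exact (hK j).isOpen_compl.mem_nhds (hwK j)
  filter_upwards [h1, Metric.ball_mem_nhds w (half_pos hδ)] with y hy1 hy2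
  rintro (h | h)
  · rw [mem_singleton_iff] at h
    rw [h, Metric.mem_ball, dist_comm] at hy2
    linarith
  · obtain ⟨j, hj⟩ := mem_iUnion.1 h
    by_cases hc : dist w x / 2 ≤ r j
    · exact mem_iInter₂.1 hy1 j hc hj
    · push Not at hc
      have h2 := hr j hj
      rw [Metric.mem_closedBall] at h2
      rw [Metric.mem_ball, dist_comm] at hy2
      have := dist_triangle w y x
      linarith

section
variable {X : Type} [MetricSpace X] {B C : Set X}

theorem good (ζ : Ordinal.{0}) : (Iio ζ).Countable → ∀ x ∈ der B C univ ζ, ∀ ε > 0,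
    ∃ S : Set X, IsClosed S ∧ S ⊆ Metric.closedBall x ε ∧ x ∈ S ∧ (∀ y ∈ S, y ≠ x → y ∈ B ∪ C) ∧
      x ∈ der B C S ζ := by
  induction ζ using WellFoundedLT.induction with
  | ind ζ ih =>
    intro hcount x hx ε hε
    have hcI : Countable (Iio ζ) := hcount
    obtain ⟨ι, hι⟩ := exists_injective_nat (Iio ζ × ℕ)
    let r : Iio ζ × ℕ → ℝ := fun j => ε / 2 / ((ι j : ℝ) + 1)
    have hrpos : ∀ j, 0 < r j := fun j => by positivity
    have hrle : ∀ j, r j ≤ ε / 2 := fun j => by
      refine div_le_self (by positivity) ?_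
      have : (0 : ℝ) ≤ ι j := Nat.cast_nonneg _
      linarith
    have hchoice : ∀ j : Iio ζ × ℕ, ∃ y z : X, ∃ Sy Sz : Set X, y ∈ B ∧ z ∈ C ∧ dist y x < r j ∧
        dist z x < r j ∧ IsClosed Sy ∧ IsClosed Sz ∧ Sy ⊆ Metric.closedBall y (r j) ∧
        Sz ⊆ Metric.closedBall z (r j) ∧ y ∈ Sy ∧ z ∈ Sz ∧
        (∀ w ∈ Sy, w ≠ y → w ∈ B ∪ C) ∧ (∀ w ∈ Sz, w ≠ z → w ∈ B ∪ C) ∧
        y ∈ der B C Sy j.1.1 ∧ z ∈ der B C Sz j.1.1 := by
      rintro ⟨⟨ξ, hξ⟩, n⟩
      have h1 := (mem_der.1 hx).2 ξ hξ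
      obtain ⟨y, hy1, hy2⟩ := Metric.mem_closure_iff.1 h1.1 _ (hrpos (⟨ξ, hξ⟩, n))
      obtain ⟨z, hz1, hz2⟩ := Metric.mem_closure_iff.1 h1.2 _ (hrpos (⟨ξ, hξ⟩, n))
      have hc' : (Iio ξ).Countable := hcount.mono (Iio_subset_Iio (le_of_lt hξ))
      obtain ⟨Sy, a1, a2, a3, a4, a5⟩ := ih ξ hξ hc' y hy1.1 _ (hrpos (⟨ξ, hξ⟩, n))
      obtain ⟨Sz, b1, b2, b3, b4, b5⟩ := ih ξ hξ hc' z hz1.1 _ (hrpos (⟨ξ, hξ⟩, n))
      exact ⟨y, z, Sy, Sz, hy1.2, hz1.2, by rw [dist_comm]; exact hy2,
        by rw [dist_comm]; exact hz2, a1, b1, a2, b2, a3, b3, a4, b4, a5, b5⟩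
    choose y z Sy Sz hyB hzC hyd hzd hSy hSz hySb hzSb hyS hzS hyU hzU hyD hzD using hchoice
    let K : Iio ζ × ℕ → Set X := fun j => Sy j ∪ Sz j
    let S : Set X := {x} ∪ ⋃ j, K j
    have hK : ∀ j, K j ⊆ Metric.closedBall x (2 * r j) := by
      intro j w hw
      rw [Metric.mem_closedBall]
      rcases hw with hw | hw
      · have h1 := hySb j hw
        rw [Metric.mem_closedBall] at h1
        have := dist_triangle w (y j) x
        linarith [hyd j]
      · have h1 := hzSb j hw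
        rw [Metric.mem_closedBall] at h1
        have := dist_triangle w (z j) x
        linarith [hzd j]
    have hfin : ∀ δ > 0, {j | δ ≤ 2 * r j}.Finite := by
      intro δ hδ
      obtain ⟨N, hN⟩ := exists_nat_gt (ε / δ)
      have : {j | δ ≤ 2 * r j} ⊆ ι ⁻¹' (Iio N) := by
        intro j hj
        have h1 : δ ≤ 2 * (ε / 2 / ((ι j : ℝ) + 1)) := hj
        have h2 : 0 < (ι j : ℝ) + 1 := by positivity
        have h3 : δ * ((ι j : ℝ) + 1) ≤ ε := by
          have h4 : 2 * (ε / 2 / ((ι j : ℝ) + 1)) = ε / ((ι j : ℝ) + 1) := by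
            field_simp
          rw [h4] at h1
          exact (le_div_iff₀ h2).1 h1
        have h5 : (ι j : ℝ) + 1 ≤ ε / δ := by
          rw [le_div_iff₀ hδ]; linarith
        have h6 : (ι j : ℝ) < N := by linarith
        exact_mod_cast h6
      exact ((finite_Iio N).preimage hι.injOn).subset this
    have hSc : IsClosed S := closed_union x K (fun j => 2 * r j)
      (fun j => (hSy j).union (hSz j)) hK hfin
    refine ⟨S, hSc, ?_, Or.inl rfl, ?_, ?_⟩
    · rintro w (hw | hw)
      · rw [mem_singleton_iff] at hw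
        rw [hw]
        exact Metric.mem_closedBall_self hε.le
      · obtain ⟨j, hj⟩ := mem_iUnion.1 hw
        refine Metric.closedBall_subset_closedBall ?_ (hK j hj)
        linarith [hrle j]
    · rintro w (hw | hw) hwx
      · exact absurd hw hwx
      · obtain ⟨j, hj⟩ := mem_iUnion.1 hw
        rcases hj with hj | hj
        · by_cases h : w = y j
          · rw [h]; exact Or.inl (hyB j)
          · exact hyU j w hj h
        · by_cases h : w = z j
          · rw [h]; exact Or.inr (hzC j)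
          · exact hzU j w hj h
    · refine mem_der.2 ⟨Or.inl rfl, fun ξ hξ => ⟨?_, ?_⟩⟩
      · rw [Metric.mem_closure_iff]
        intro δ hδ
        -- infinitely many indices `(ξ, n)`
        obtain ⟨n, hn⟩ : ∃ n, 2 * r (⟨ξ, hξ⟩, n) < δ := by
          by_contra hcon
          push Not at hcon
          have h1 := hfin δ hδ
          have h2 : (Set.range fun n : ℕ => ((⟨ξ, hξ⟩, n) : Iio ζ × ℕ)).Finite :=
            h1.subset (by rintro _ ⟨n, rfl⟩; exact hcon n)
          exact Set.infinite_range_of_injective (fun a b h => by simpa using h) h2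
        refine ⟨y (⟨ξ, hξ⟩, n), ⟨?_, hyB _⟩, ?_⟩
        · refine der_mono ?_ inter_subset_right inter_subset_right ξ (hyD (⟨ξ, hξ⟩, n))
          intro w hw
          exact Or.inr (mem_iUnion.2 ⟨_, Or.inl hw⟩)
        · rw [dist_comm]
          have := hyd (⟨ξ, hξ⟩, n)
          linarith [hrpos (⟨ξ, hξ⟩, n)]
      · rw [Metric.mem_closure_iff]
        intro δ hδ
        obtain ⟨n, hn⟩ : ∃ n, 2 * r (⟨ξ, hξ⟩, n) < δ := by
          by_contra hcon
          push Not at hcon
          have h1 := hfin δ hδ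
          have h2 : (Set.range fun n : ℕ => ((⟨ξ, hξ⟩, n) : Iio ζ × ℕ)).Finite :=
            h1.subset (by rintro _ ⟨n, rfl⟩; exact hcon n)
          exact Set.infinite_range_of_injective (fun a b h => by simpa using h) h2
        refine ⟨z (⟨ξ, hξ⟩, n), ⟨?_, hzC _⟩, ?_⟩
        · refine der_mono ?_ inter_subset_right inter_subset_right ξ (hzD (⟨ξ, hξ⟩, n))
          intro w hw
          exact Or.inr (mem_iUnion.2 ⟨_, Or.inr hw⟩)
        · rw [dist_comm]
          have := hzd (⟨ξ, hξ⟩, n)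
          linarith [hrpos (⟨ξ, hξ⟩, n)]

end

/-- In a Polish space the derivative of disjoint `G_δ` sets dies out. -/
theorem der_dies {X : Type} [TopologicalSpace X] [PolishSpace X] {B C : Set X} (hB : IsGδ B)
    (hC : IsGδ C) (hBC : B ∩ C = ∅) : ∃ l : Ordinal.{0}, der B C univ l = ∅ := by
  by_contra hcon
  push Not at hcon
  -- stabilisation
  obtain ⟨θ, hθ⟩ : ∃ θ : Ordinal.{0}, der B C univ θ = der B C univ (θ + 1) := by
    by_contra hc
    push Not at hc
    refine not_injective_of_ordinal (fun θ : Ordinal.{0} => der B C (univ : Set X) θ) ?_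
    intro a b hab
    have hab' : der B C (univ : Set X) a = der B C univ b := hab
    rcases lt_trichotomy a b with h | h | h
    · refine absurd (Subset.antisymm ?_ (der_anti (lt_add_one a).le)) (hc a)
      rw [hab']
      exact der_anti (Order.add_one_le_of_lt h)
    · exact h
    · refine absurd (Subset.antisymm ?_ (der_anti (lt_add_one b).le)) (hc b)
      rw [← hab']
      exact der_anti (Order.add_one_le_of_lt h)
  set P : Set X := der B C univ θ with hP
  have hPc : IsClosed P := der_closed isClosed_univ θ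
  have h1 : ∀ x ∈ P, x ∈ closure (P ∩ B) ∧ x ∈ closure (P ∩ C) := by
    intro x hx
    rw [hθ] at hx
    exact (mem_der.1 hx).2 θ (lt_add_one θ)
  have : PolishSpace P := hPc.polishSpace
  obtain ⟨x0, hx0⟩ := hcon θ
  have hne : Nonempty P := ⟨⟨x0, hx0⟩⟩
  have hdense : ∀ D : Set X, (∀ x ∈ P, x ∈ closure (P ∩ D)) →
      Dense ((↑) ⁻¹' D : Set P) := by
    intro D hD x
    rw [closure_subtype]
    have : ((↑) '' ((↑) ⁻¹' D : Set P) : Set X) = P ∩ D := by
      ext y
      constructor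
      · rintro ⟨⟨y, hy⟩, hy', rfl⟩
        exact ⟨hy, hy'⟩
      · rintro ⟨hy, hy'⟩
        exact ⟨⟨y, hy⟩, hy', rfl⟩
    rw [this]
    exact hD x.1 x.2
  have hBg : IsGδ ((↑) ⁻¹' B : Set P) := hB.preimage continuous_subtype_val
  have hCg : IsGδ ((↑) ⁻¹' C : Set P) := hC.preimage continuous_subtype_val
  have hd := Dense.inter_of_Gδ hBg hCg (hdense B fun x hx => (h1 x hx).1)
    (hdense C fun x hx => (h1 x hx).2)
  obtain ⟨⟨w, hw⟩, hw1, hw2⟩ := hd.nonempty
  have : w ∈ B ∩ C := ⟨hw1, hw2⟩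
  rw [hBC] at this
  exact this

end Pool.Agent.X224.RK
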