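import Pool.Agent.X224.RK.Base

/-!
Every rank with (P1)-(P4) is equivalent to the separation rank.
-/

namespace Pool.Agent.X224.RK

open Set Topology Order

section
variable {ρ : Rank} {X : Type} [TopologicalSpace X] [PolishSpace X] {η : Ordinal.{0}}

/-- bounded Baire class 1 functions of rank at most `ω^η` -/
def Low (ρ : Rank) (η : Ordinal.{0}) (f : X → ℝ) : Prop :=
  Baire1 f ∧ Bdd f ∧ ρ X f ≤ Ordinal.omega0 ^ η

theorem Low.add (h2 : P2 ρ) (h1η : 1 ≤ η) (hη : η < Ordinal.omega 1) {f g : X → ℝ}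
    (hf : Low ρ η f) (hg : Low ρ η g) : Low ρ η fun x => f x + g x :=
  ⟨hf.1.add hg.1, hf.2.1.add hg.2.1,
    h2.2 X f g hf.1 hf.2.1 hg.1 hg.2.1 η h1η hη (max_le hf.2.2 hg.2.2)⟩

theorem Low.mul (h2 : P2 ρ) (h1η : 1 ≤ η) (hη : η < Ordinal.omega 1) {f : X → ℝ}
    (hf : Low ρ η f) {c : ℝ} (hc : c ≠ 0) : Low ρ η fun x => c * f x :=
  ⟨hf.1.mul_const c, hf.2.1.mul_const c, (h2.1 X f c hf.1 hf.2.1 hc).1 η h1η hη hf.2.2⟩

theorem low_chi (h1 : P1 ρ) (h1η : 1 ≤ η) (hη : η < Ordinal.omega 1) {A : Set X}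
    (hA : Delta2 A) (h : alphaS A Aᶜ ≤ Ordinal.omega0 ^ η) : Low ρ η (chi A) :=
  ⟨baire1_chi hA, bdd_chi A, (h1 X A hA).1 η h1η hη h⟩

theorem one_le_opow (η : Ordinal.{0}) : 1 ≤ Ordinal.omega0 ^ η :=
  Order.one_le_iff_pos.2 (Ordinal.opow_pos _ Ordinal.omega0_pos)

theorem two_le_opow (h1η : 1 ≤ η) : 2 ≤ Ordinal.omega0 ^ η := by
  have h1 : Ordinal.omega0 ^ (1 : Ordinal.{0}) ≤ Ordinal.omega0 ^ η :=
    Ordinal.opow_le_opow_right Ordinal.omega0_pos h1η
  rw [Ordinal.opow_one] at h1
  refine le_trans (le_of_lt ?_) h1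
  exact_mod_cast Ordinal.natCast_lt_omega0 2

theorem low_one (h1 : P1 ρ) (h1η : 1 ≤ η) (hη : η < Ordinal.omega 1) :
    Low ρ η (chi (univ : Set X)) := by
  refine low_chi h1 h1η hη delta2_univ (alphaS_le_of_der h1η ?_)
  rw [eq_empty_iff_forall_notMem]
  intro x hx
  have := ((mem_der.1 (der_anti (one_le_opow η) hx)).2 0 zero_lt_one).2
  rw [compl_univ, inter_empty, closure_empty] at this
  exact this

theorem low_const (h1 : P1 ρ) (h2 : P2 ρ) (h1η : 1 ≤ η) (hη : η < Ordinal.omega 1) (c : ℝ) :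
    Low ρ η (fun _ : X => c) := by
  have h3 : ∀ c : ℝ, c ≠ 0 → Low ρ η (fun _ : X => c) := by
    intro c hc
    have := (low_one (X := X) h1 h1η hη).mul h2 h1η hη hc
    have e : (fun x : X => c * chi univ x) = fun _ => c := by
      funext x
      unfold chi
      rw [indicator_of_mem (mem_univ _), mul_one]
    rwa [e] at this
  by_cases hc : c = 0
  · have := (h3 1 one_ne_zero).add h2 h1η hη (h3 (-1) (by norm_num))
    have e : (fun _ : X => (1 : ℝ) + -1) = fun _ => c := by
      funext x; rw [hc]; norm_num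
    rwa [e] at this
  · exact h3 c hc

theorem low_chi_closed (h1 : P1 ρ) (h1η : 1 ≤ η) (hη : η < Ordinal.omega 1) {S : Set X}
    (hS : IsClosed S) : Low ρ η (chi S) := by
  refine low_chi h1 h1η hη ⟨hS.isGδ, hS.isOpen_compl.isGδ⟩ (alphaS_le_of_der h1η ?_)
  rw [eq_empty_iff_forall_notMem]
  intro x hx
  have h3 := ((mem_der.1 (der_anti (two_le_opow h1η) hx)).2 1 (by norm_num)).2
  have h4 : der S Sᶜ univ 1 ∩ Sᶜ = ∅ := by
    rw [eq_empty_iff_forall_notMem]
    rintro y ⟨hy1, hy2⟩
    have h5 := ((mem_der.1 hy1).2 0 zero_lt_one).1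
    have h6 : closure (der S Sᶜ univ 0 ∩ S) ⊆ S := closure_minimal inter_subset_right hS
    exact hy2 (h6 h5)
  rw [h4, closure_empty] at h3
  exact h3

theorem low_sum (h1 : P1 ρ) (h2 : P2 ρ) (h1η : 1 ≤ η) (hη : η < Ordinal.omega 1)
    (g : ℕ → X → ℝ) (hg : ∀ i, Low ρ η (g i)) (N : ℕ) :
    Low ρ η fun x => ∑ i ∈ Finset.range N, g i x := by
  induction N with
  | zero =>
    simp only [Finset.range_zero, Finset.sum_empty]
    exact low_const h1 h2 h1η hη 0
  | succ N ih =>
    simp only [Finset.sum_range_succ]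
    exact ih.add h2 h1η hη (hg N)

/-- The upper bound. -/
theorem upper (h1 : P1 ρ) (h2 : P2 ρ) (h3 : P3 ρ) {f : X → ℝ} (hf : Baire1 f) (hb : Bdd f) :
    lesssim (ρ X f) (alpha1 f) := by
  intro η h1η hη hle
  obtain ⟨M0, hM0⟩ := hb
  obtain ⟨M, hM⟩ := exists_nat_gt M0
  -- separating sets
  have hsep : ∀ p q : ℚ, p < q → ∃ H : Set X, {x | f x ≤ (p : ℝ)} ⊆ H ∧
      H ∩ {x | (q : ℝ) ≤ f x} = ∅ ∧ Low ρ η (chi H) := by
    intro p q hpq
    have hB : IsGδ {x | f x ≤ (p : ℝ)} := hf (Iic (p : ℝ)) isClosed_Iic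
    have hC : IsGδ {x | (q : ℝ) ≤ f x} := hf (Ici (q : ℝ)) isClosed_Ici
    have hd : {x | f x ≤ (p : ℝ)} ∩ {x | (q : ℝ) ≤ f x} = ∅ := by
      rw [eq_empty_iff_forall_notMem]
      rintro x ⟨h4, h5⟩
      have h6 : (p : ℝ) < q := by exact_mod_cast hpq
      have h7 : f x ≤ (p : ℝ) := h4
      have h8 : (q : ℝ) ≤ f x := h5
      linarith
    have hs := sep_alphaS hB hC hd
    have hle' : alphaS {x | f x ≤ (p : ℝ)} {x | (q : ℝ) ≤ f x} ≤ Ordinal.omega0 ^ η := by
      refine le_trans ?_ hle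
      exact Ordinal.le_iSup (fun pq : {pq : ℚ × ℚ // pq.1 < pq.2} =>
        alphaS {x | f x ≤ (pq.1.1 : ℝ)} {x | (pq.1.2 : ℝ) ≤ f x}) ⟨(p, q), hpq⟩
    obtain ⟨F, hF, hBF, hCF⟩ := hs
    refine ⟨_, hBF, hCF, low_chi h1 h1η hη (delta2_tdiff hF) (le_trans (alphaS_le ?_) hle')⟩
    exact ⟨F, hF, Subset.rfl, inter_compl_self _⟩
  -- approximations
  have happ : ∀ n : ℕ, ∃ g : X → ℝ, Low ρ η g ∧ ∀ x, |f x - g x| ≤ 1 / ((n : ℝ) + 1) := by
    intro n
    let p : ℕ → ℚ := fun i => -(M : ℚ) + i / ((n : ℚ) + 1)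
    have hn : (0 : ℚ) < (n : ℚ) + 1 := by positivity
    have hnR : (0 : ℝ) < (n : ℝ) + 1 := by positivity
    have hp : ∀ i, p i < p (i + 1) := by
      intro i
      simp only [p, Nat.cast_add, Nat.cast_one]
      have : (i : ℚ) / ((n : ℚ) + 1) < ((i : ℚ) + 1) / ((n : ℚ) + 1) :=
        div_lt_div_of_pos_right (by linarith) hn
      linarith
    have hch : ∀ i, ∃ H : Set X, {x | f x ≤ (p i : ℝ)} ⊆ H ∧
        H ∩ {x | (p (i + 1) : ℝ) ≤ f x} = ∅ ∧ Low ρ η (chi H) := fun i => hsep _ _ (hp i)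
    choose H hH1 hH2 hH3 using hch
    let N : ℕ := 2 * M * (n + 1)
    let g : X → ℝ := fun x => -(M : ℝ) + 1 / ((n : ℝ) + 1) *
      ∑ i ∈ Finset.range N, (1 + (-1) * chi (H i) x)
    refine ⟨g, ?_, ?_⟩
    · have e1 : ∀ i, Low ρ η fun x => 1 + (-1) * chi (H i) x := fun i =>
        (low_const h1 h2 h1η hη 1).add h2 h1η hη ((hH3 i).mul h2 h1η hη (by norm_num))
      exact (low_const h1 h2 h1η hη _).add h2 h1η hη
        ((low_sum h1 h2 h1η hη _ e1 N).mul h2 h1η hη (by positivity))
    · intro x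
      have hfx := hM0 x
      rw [abs_le] at hfx
      set y : ℝ := (f x + M) * (n + 1) with hy
      have hy0 : 0 < y := by
        refine mul_pos ?_ hnR
        linarith [hfx.1]
      set j : ℕ := ⌊y⌋₊ with hj
      have hj1 : (j : ℝ) ≤ y := Nat.floor_le hy0.le
      have hj2 : y < j + 1 := Nat.lt_floor_add_one y
      have hfy : f x = -(M : ℝ) + y / ((n : ℝ) + 1) := by
        rw [hy, mul_div_assoc, div_self hnR.ne']
        ring
      have hpR : ∀ i, ((p i : ℚ) : ℝ) = -(M : ℝ) + (i : ℝ) / ((n : ℝ) + 1) := by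
        intro i
        simp only [p]
        push_cast
        ring
      have hyN : y < N := by
        rw [hy]
        have h5 : f x + M < 2 * M := by linarith [hfx.2]
        have h6 : ((N : ℕ) : ℝ) = 2 * M * (n + 1) := by simp only [N]; push_cast; ring
        rw [h6]
        exact mul_lt_mul_of_pos_right h5 hnR
      have hjN : j + 1 ≤ N := by
        have : (j : ℝ) < N := lt_of_le_of_lt hj1 hyN
        exact_mod_cast this
      -- terms
      have t1 : ∀ i, i < j → chi (H i) x = 0 := by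
        intro i hi
        unfold chi
        refine indicator_of_notMem ?_ _
        intro hx
        have : x ∈ H i ∩ {x | (p (i + 1) : ℝ) ≤ f x} := by
          refine ⟨hx, ?_⟩
          change (p (i + 1) : ℝ) ≤ f x
          rw [hpR, hfy]
          have h7 : ((i + 1 : ℕ) : ℝ) ≤ y := le_trans (by exact_mod_cast hi) hj1
          have := div_le_div_of_nonneg_right h7 hnR.le
          linarith
        rw [hH2] at this
        exact this
      have t2 : ∀ i, j < i → chi (H i) x = 1 := by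
        intro i hi
        unfold chi
        refine indicator_of_mem (hH1 i ?_) _
        change f x ≤ (p i : ℝ)
        rw [hpR, hfy]
        have h7 : y ≤ (i : ℝ) := by
          have : ((j : ℝ) + 1) ≤ i := by exact_mod_cast hi
          linarith
        have := div_le_div_of_nonneg_right h7 hnR.le
        linarith
      have t3 : 0 ≤ chi (H j) x ∧ chi (H j) x ≤ 1 := by
        unfold chi
        by_cases h : x ∈ H j
        · rw [indicator_of_mem h]; norm_num
        · rw [indicator_of_notMem h]; norm_num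
      have hsum : ∑ i ∈ Finset.range N, (1 + (-1) * chi (H i) x) =
          j + (1 - chi (H j) x) := by
        obtain ⟨m, hm⟩ := Nat.exists_eq_add_of_le hjN
        rw [hm, Finset.sum_range_add, Finset.sum_range_succ]
        have s1 : ∑ i ∈ Finset.range j, (1 + (-1) * chi (H i) x) = j := by
          rw [Finset.sum_congr rfl fun i hi => by rw [t1 i (Finset.mem_range.1 hi)]]
          simp
        have s2 : ∑ i ∈ Finset.range m, (1 + (-1) * chi (H (j + 1 + i)) x) = 0 := by
          refine Finset.sum_eq_zero fun i _ => ?_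
          rw [t2 _ (by omega)]
          norm_num
        rw [s1, s2]
        ring
      have hgx : g x = -(M : ℝ) + ((j : ℝ) + (1 - chi (H j) x)) / ((n : ℝ) + 1) := by
        simp only [g]
        rw [hsum]
        ring
      rw [hgx, hfy]
      have e3 : -(M : ℝ) + y / ((n : ℝ) + 1) -
          (-(M : ℝ) + ((j : ℝ) + (1 - chi (H j) x)) / ((n : ℝ) + 1)) =
          (y - (j + (1 - chi (H j) x))) / ((n : ℝ) + 1) := by ring
      rw [e3, abs_div, abs_of_pos hnR]
      refine div_le_div_of_nonneg_right ?_ hnR.le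
      rw [abs_le]
      constructor
      · linarith [t3.1, t3.2]
      · linarith [t3.1, t3.2]
  choose g hg1 hg2 using happ
  have hunif : TendstoUniformly g f Filter.atTop := by
    rw [Metric.tendstoUniformly_iff]
    intro ε hε
    obtain ⟨N, hN⟩ := exists_nat_one_div_lt hε
    filter_upwards [Filter.eventually_ge_atTop N] with n hn x
    rw [Real.dist_eq]
    refine lt_of_le_of_lt (hg2 n x) (lt_of_le_of_lt ?_ hN)
    refine one_div_le_one_div_of_le (by positivity) ?_
    have : (N : ℝ) ≤ n := by exact_mod_cast hn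
    linarith
  refine h3 X f g hf ⟨M0, hM0⟩ (fun n => (hg1 n).1) (fun n => (hg1 n).2.1) hunif η h1η hη ?_
  exact Ordinal.iSup_le fun n => (hg1 n).2.2

/-- The lower bound. -/
theorem lower (h1 : P1 ρ) (h2 : P2 ρ) (h4 : P4 ρ) {f : X → ℝ} (hf : Baire1 f) (hb : Bdd f) :
    lesssim (alpha1 f) (ρ X f) := by
  intro η h1η hη hle
  refine Ordinal.iSup_le ?_
  rintro ⟨⟨p0, q0⟩, hpq0⟩
  set p : ℝ := (p0 : ℝ) with hp
  set q : ℝ := (q0 : ℝ) with hq
  have hpq : p < q := by rw [hp, hq]; exact_mod_cast hpq0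
  change alphaS {x | f x ≤ p} {x | q ≤ f x} ≤ _
  by_contra hcon
  have hne : (der {x | f x ≤ p} {x | q ≤ f x} univ (Ordinal.omega0 ^ η)).Nonempty := by
    rw [nonempty_iff_ne_empty]
    intro h
    exact hcon (alphaS_le_of_der h1η h)
  obtain ⟨x, hx⟩ := hne
  rw [der_symm] at hx
  let _ := TopologicalSpace.upgradeIsCompletelyMetrizable X
  have hcount : (Iio (Ordinal.omega0 ^ η)).Countable := by
    have h5 : Ordinal.omega0 ^ η < Ordinal.omega 1 :=
      Ordinal.isPrincipal_opow_omega 1 Ordinal.omega0_lt_omega_one hη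
    have h6 : (Ordinal.omega0 ^ η).card ≤ Cardinal.aleph0 := by
      have h7 : (Ordinal.omega0 ^ η).card < Cardinal.aleph 1 := by
        rw [← Cardinal.lt_ord, Cardinal.ord_aleph]
        exact h5
      rw [← Cardinal.succ_aleph0, Order.lt_succ_iff] at h7
      exact h7
    rw [← Set.countable_coe_iff, ← Cardinal.mk_le_aleph0_iff, Cardinal.mk_Iio_ordinal,
      Cardinal.lift_le_aleph0]
    exact h6
  obtain ⟨S, hSc, -, hxS, hSU, hSD⟩ := good (Ordinal.omega0 ^ η) hcount x hx 1 one_pos
  -- the threshold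
  obtain ⟨r, hpr, hrq, hfx⟩ : ∃ r, p < r ∧ r ≤ q ∧ (f x ≤ p ∨ r ≤ f x) := by
    by_cases h : f x ≤ p
    · exact ⟨q, hpq, le_rfl, Or.inl h⟩
    · push Not at h
      exact ⟨min (f x) q, lt_min h hpq, min_le_right _ _, Or.inr (min_le_left _ _)⟩
  have hval : ∀ y ∈ S, f y ≤ p ∨ r ≤ f y := by
    intro y hy
    by_cases h : y = x
    · rw [h]; exact hfx
    · rcases hSU y hy h with h5 | h5
      · exact Or.inr (hrq.trans h5)
      · exact Or.inl h5
  let u : ℝ → ℝ := fun t => max p (min r t)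
  have hu : LipschitzWith 1 u := (LipschitzWith.id.const_min r).const_max p
  have hu0 : ∀ t, t ≤ p → u t = p := by
    intro t ht
    simp only [u]
    rw [max_eq_left]
    exact (min_le_right _ _).trans ht
  have hu1 : ∀ t, r ≤ t → u t = r := by
    intro t ht
    simp only [u]
    rw [min_eq_left ht, max_eq_right hpr.le]
  have hur : ∀ t, u t ≤ r := fun t => max_le hpr.le (min_le_left _ _)
  let A : Set X := {y | y ∈ S ∧ u (f y) = r}
  have hrp : 0 < r - p := by linarith
  have huB : Baire1 fun y => u (f y) := hf.comp hu.continuous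
  have hA : Delta2 A := by
    constructor
    · exact hSc.isGδ.inter (huB {r} isClosed_singleton)
    · have e : Aᶜ = Sᶜ ∪ (fun y => u (f y)) ⁻¹' {p} := by
        ext y
        constructor
        · intro hy
          by_cases h : y ∈ S
          · right
            rcases hval y h with h5 | h5
            · exact hu0 _ h5
            · exact (hy ⟨h, hu1 _ h5⟩).elim
          · exact Or.inl h
        · rintro (hy | hy) hyA
          · exact hy hyA.1
          · have h5 : u (f y) = p := hy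
            rw [hyA.2] at h5
            linarith
      rw [e]
      exact hSc.isOpen_compl.isGδ.union (huB {p} isClosed_singleton)
  -- the characteristic function of `A` has small rank
  have hLf : Low ρ η f := ⟨hf, hb, hle⟩
  have hLu : Low ρ η fun y => u (f y) := by
    refine ⟨huB, ?_, h4 X f u hf hb ⟨1, hu⟩ η h1η hη hle⟩
    refine ⟨|p| + |r|, fun y => ?_⟩
    have h5 := hur (f y)
    have h6 : p ≤ u (f y) := le_max_left _ _
    rw [abs_le]
    constructor
    · linarith [neg_abs_le p, abs_nonneg r]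
    · linarith [le_abs_self r, abs_nonneg p]
  have hL3 : Low ρ η fun y => (1 / (r - p)) * u (f y) + (chi S y + (-p / (r - p) - 1)) :=
    (hLu.mul h2 h1η hη (by positivity)).add h2 h1η hη
      ((low_chi_closed h1 h1η hη hSc).add h2 h1η hη (low_const h1 h2 h1η hη _))
  have hchi : (fun y => max 0 ((1 / (r - p)) * u (f y) + (chi S y + (-p / (r - p) - 1)))) =
      chi A := by
    funext y
    by_cases hy : y ∈ S
    · have e1 : chi S y = 1 := by unfold chi; exact indicator_of_mem hy _
      rcases hval y hy with h5 | h5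
      · have e2 : chi A y = 0 := by
          unfold chi
          refine indicator_of_notMem ?_ _
          rintro ⟨-, h6⟩
          rw [hu0 _ h5] at h6
          linarith
        rw [e1, e2, hu0 _ h5]
        have : (1 / (r - p)) * p + (1 + (-p / (r - p) - 1)) = 0 := by ring
        rw [this, max_self]
      · have e2 : chi A y = 1 := by
          unfold chi
          have hyA : y ∈ A := ⟨hy, hu1 _ h5⟩
          exact indicator_of_mem hyA _
        rw [e1, e2, hu1 _ h5]
        have : (1 / (r - p)) * r + (1 + (-p / (r - p) - 1)) = 1 := by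
          field_simp
          ring
        rw [this]
        norm_num
    · have e1 : chi S y = 0 := by unfold chi; exact indicator_of_notMem hy _
      have e2 : chi A y = 0 := by
        unfold chi
        exact indicator_of_notMem (fun h => hy h.1) _
      rw [e1, e2]
      refine max_eq_left ?_
      have h6 : (1 / (r - p)) * u (f y) ≤ (1 / (r - p)) * r :=
        mul_le_mul_of_nonneg_left (hur _) (by positivity)
      have : (1 / (r - p)) * r + (0 + (-p / (r - p) - 1)) = 0 := by
        field_simp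
        ring
      linarith
  have hrank : ρ X (chi A) ≤ Ordinal.omega0 ^ η := by
    rw [← hchi]
    exact h4 X _ (fun t => max 0 t) hL3.1 hL3.2.1 ⟨1, LipschitzWith.id.const_max 0⟩ η h1η hη hL3.2.2
  have hal : alphaS A Aᶜ ≤ Ordinal.omega0 ^ η := (h1 X A hA).2 η h1η hη hrank
  have hsep : Sep (Ordinal.omega0 ^ η) A Aᶜ :=
    (sep_alphaS hA.1 hA.2 (inter_compl_self _)).mono hal
  have hdead := der_of_sep hsep
  have hmem : x ∈ der A Aᶜ univ (Ordinal.omega0 ^ η) := by
    refine der_mono (subset_univ _) ?_ ?_ _ hSD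
    · rintro y ⟨hy1, hy2⟩
      exact ⟨hy1, hu1 _ (hrq.trans hy2)⟩
    · rintro y ⟨hy1, hy2⟩ hyA
      have h5 := hyA.2
      rw [hu0 _ hy2] at h5
      linarith
  rw [hdead] at hmem
  exact hmem

end

end Pool.Agent.X224.RK
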